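import Pool.Agent.J4H43.MW.Stm

/-!
# Project MW: leading index sums of combinations of elements of several weights (VAN)
-/

set_option autoImplicit false
set_option linter.unusedSectionVars false

namespace Pool.Agent.J4H18.MW

open Polynomial Pool.Agent.Helper392_GT Pool.Agent.J4H43.FR Pool.Agent.J4H43.SW Pool.Agent.J4H43.MW

universe u

attribute [local instance 100] LieRing.ofAssociativeRing

variable {k : Type u} [Field k]

theorem wt_D1 {n : ℕ} (hn : 2 ≤ n) {σ : F2 k} (h : σ ∈ wt k n) : σ ∈ D1 k := by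
  obtain ⟨m, rfl⟩ : ∃ m, n = m + 2 := ⟨n - 2, by omega⟩
  have h1 : σ ∈ Submodule.span k {v | ∃ u ∈ wt k (m + 1), v = ⁅(FreeLieAlgebra.of k 0 : F2 k), u⁆ ∨
        v = ⁅(FreeLieAlgebra.of k 1 : F2 k), u⁆} := h
  refine Submodule.span_induction (p := fun x _ => x ∈ D1 k) ?_ ?_ ?_ ?_ h1
  · rintro x ⟨u, _, rfl | rfl⟩
    · exact mem_D1 _ _
    · exact mem_D1 _ _
  · exact (D1 k).zero_mem
  · intro x y _ _ hx hy
    exact (D1 k).add_mem hx hy
  · intro a x _ hx
    exact (D1 k).smul_mem _ hx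

theorem hs_rec {n : ℕ} (hn : 2 ≤ n) {σ : F2 k} (h : σ ∈ wt k n) (d s : ℕ) :
    ((n : k) - d - s) • hs d σ n s = -pd (hs d σ n (s + 1)) := by
  by_cases h1 : s + 1 + d ≤ n
  · have h2 : s + d ≤ n := by omega
    obtain ⟨a, ha⟩ : ∃ a, n = a + 1 + d + s := ⟨n - (s + 1 + d), by omega⟩
    have e1 : n - d - s = a + 1 := by omega
    have e2 : n - d - (s + 1) = a := by omega
    rw [hs, hs, if_pos h1, if_pos h2, e1, e2, ← trans_lead (wt_D1 hn h) d a]
    congr 1
    rw [ha]
    push_cast
    ring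
  · have e2 : hs d σ n (s + 1) = 0 := by rw [hs, if_neg h1]
    rw [e2, map_zero, neg_zero]
    by_cases h2 : s + d ≤ n
    · have e3 : n = d + s := by omega
      have e4 : (n : k) - d - s = 0 := by
        rw [e3]
        push_cast
        ring
      rw [e4, zero_smul]
    · rw [hs, if_neg h2, smul_zero]

section fam

variable {r : ℕ} (d : ℕ) (σ : Fin r → F2 k) (n : Fin r → ℕ) (c : Fin r → k)

/-- moments -/
noncomputable def Tm (i s : ℕ) : BB k := ∑ j, (c j * (n j : k) ^ i) • hs d (σ j) (n j) s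

theorem Tm_succ (hw : ∀ j, σ j ∈ wt k (n j)) (h2 : ∀ j, 2 ≤ n j) (i s : ℕ) :
    Tm d σ n c (i + 1) s = ((d : k) + s) • Tm d σ n c i s - pd (Tm d σ n c i (s + 1)) := by
  rw [Tm, Tm, Tm, map_sum, Finset.smul_sum, ← Finset.sum_sub_distrib]
  refine Finset.sum_congr rfl fun j _ => ?_
  have h := hs_rec (h2 j) (hw j) d s
  rw [map_smul, smul_smul]
  have e : (c j * (n j : k) ^ (i + 1)) • hs d (σ j) (n j) s =
      (((d : k) + s) * (c j * (n j : k) ^ i)) • hs d (σ j) (n j) s +
      (c j * (n j : k) ^ i) • (((n j : k) - d - s) • hs d (σ j) (n j) s) := by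
    rw [smul_smul, ← add_smul]
    congr 1
    ring
  rw [e, h, smul_neg, sub_eq_add_neg]

theorem Tm_van (hw : ∀ j, σ j ∈ wt k (n j)) (h2 : ∀ j, 2 ≤ n j) (s0 m : ℕ)
    (h0 : ∀ t, t < m → Tm d σ n c 0 (s0 + t) = 0) :
    ∀ i t, i + t < m → Tm d σ n c i (s0 + t) = 0 := by
  intro i
  induction i with
  | zero =>
    intro t ht
    exact h0 t (by omega)
  | succ i ih =>
    intro t ht
    rw [Tm_succ d σ n c hw h2, ih t (by omega)]
    have h1 := ih (t + 1) (by omega)
    rw [← add_assoc] at h1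
    rw [h1, map_zero, smul_zero, sub_zero]

theorem poly_van (s0 m : ℕ) (h0 : ∀ i, i < m → Tm d σ n c i s0 = 0) (P : k[X])
    (hP : P.natDegree < m) :
    ∑ j, (c j * P.eval (n j : k)) • hs d (σ j) (n j) s0 = 0 := by
  have e : ∀ j, (c j * P.eval (n j : k)) • hs d (σ j) (n j) s0 =
      ∑ i ∈ Finset.range m, P.coeff i • ((c j * (n j : k) ^ i) • hs d (σ j) (n j) s0) := by
    intro j
    rw [Polynomial.eval_eq_sum_range' hP, Finset.mul_sum, Finset.sum_smul]
    refine Finset.sum_congr rfl fun i _ => ?_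
    rw [smul_smul]
    congr 1
    ring
  rw [Finset.sum_congr rfl fun j _ => e j, Finset.sum_comm]
  refine Finset.sum_eq_zero fun i hi => ?_
  rw [← Finset.smul_sum]
  have := h0 i (Finset.mem_range.1 hi)
  rw [Tm] at this
  rw [this, smul_zero]

end fam

theorem t_VAN (hKB : S_KB.{u}) : S_VAN.{u} := by
  intro k _ _ r d σ n W hd hw h2 hdep hW hcard hli c hc0
  classical
  -- the smallest weight
  obtain ⟨j1, hj1⟩ : ∃ j, c j ≠ 0 := by
    by_contra hcon
    push Not at hcon
    exact hc0 (funext hcon)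
  obtain ⟨j0, hj0, hmin⟩ := Finset.exists_min_image (Finset.univ.filter fun j => c j ≠ 0) n
    ⟨j1, Finset.mem_filter.2 ⟨Finset.mem_univ _, hj1⟩⟩
  have hcj0 : c j0 ≠ 0 := (Finset.mem_filter.1 hj0).2
  have hmin' : ∀ j, c j ≠ 0 → n j0 ≤ n j := fun j hj =>
    hmin j (Finset.mem_filter.2 ⟨Finset.mem_univ _, hj⟩)
  set w0 := n j0 with hw0
  set c' : Fin r → k := fun j => if n j = w0 then c j else 0 with hc'
  set f : F2 k := ∑ j, c' j • σ j with hf
  have hfw : f ∈ wt k w0 := by
    refine (wt k w0).sum_mem fun j _ => ?_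
    by_cases h : n j = w0
    · rw [← h]
      exact (wt k (n j)).smul_mem _ (hw j)
    · have : c' j = 0 := by rw [hc']; simp only [if_neg h]
      rw [this, zero_smul]
      exact (wt k w0).zero_mem
  have hfd : DepthGE k d f := depth_sum hdep c'
  have hfn : ¬ DepthGE k (d + 1) f := by
    intro h
    have h1 := congrFun (hli c' h) j0
    have h3 : c' j0 = c j0 := by rw [hc']; simp only [← hw0, if_true]
    rw [h3] at h1
    exact hcj0 h1
  obtain ⟨e, he, hwe⟩ := hKB k w0 d f hfw (h2 j0) hfd hfn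
  have hed : e + d ≤ w0 := by
    by_contra hcon
    apply he
    refine wc_ext fun v => ?_
    rw [wc_hc]
    by_cases hv : v.length = d
    · rw [if_pos hv]
      by_contra hne
      have := t_SW3 k w0 f hfw e v hne
      omega
    · rw [if_neg hv]
  have hWe : W.card ≤ e := by
    have h1 := hcard j0
    rw [← hw0] at h1
    have h3 : W.card * d < (e + 1) * d := lt_of_lt_of_le h1 hwe
    have h4 := lt_of_mul_lt_mul_right h3 (Nat.zero_le d)
    omega
  set s0 := w0 - d - e with hs0
  have hne : ∑ j, c' j • hs d (σ j) (n j) s0 ≠ 0 := by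
    have h1 : ∑ j, c' j • hs d (σ j) (n j) s0 = hc d ((Ph f).coeff e) := by
      rw [hf, hc_Ph_sum]
      refine Finset.sum_congr rfl fun j _ => ?_
      by_cases h : n j = w0
      · rw [h, hs, if_pos (by omega), show w0 - d - s0 = e by omega]
      · have : c' j = 0 := by rw [hc']; simp only [if_neg h]
        rw [this, zero_smul, zero_smul]
    rw [h1]
    exact he
  have hex : ∃ t, t < W.card ∧ Tm d σ n c 0 (s0 + t) ≠ 0 := by
    by_contra hcon
    push Not at hcon
    have h1 := Tm_van d σ n c hw h2 s0 W.card hcon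
    have h3 : ∀ i, i < W.card → Tm d σ n c i s0 = 0 := fun i hi => by
      have := h1 i 0 (by omega)
      rwa [add_zero] at this
    have hw0W : w0 ∈ W := hW j0
    have hP : (∏ w ∈ W.erase w0, (X - C (w : k))).natDegree < W.card := by
      rw [natDegree_finsetProd_X_sub_C_eq_card, Finset.card_erase_of_mem hw0W]
      have := Finset.card_pos.2 ⟨w0, hw0W⟩
      omega
    have h4 := poly_van d σ n c s0 W.card h3 _ hP
    apply hne
    have h5 : (∏ w ∈ W.erase w0, (X - C (w : k))).eval (w0 : k) ≠ 0 := by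
      rw [eval_prod, Finset.prod_ne_zero_iff]
      intro w hw'
      rw [eval_sub, eval_X, eval_C, sub_ne_zero]
      exact fun h => (Finset.mem_erase.1 hw').1 (Nat.cast_injective h).symm
    have h6 : ∀ j, (c j * (∏ w ∈ W.erase w0, (X - C (w : k))).eval (n j : k)) • hs d (σ j) (n j) s0 =
        (∏ w ∈ W.erase w0, (X - C (w : k))).eval (w0 : k) • (c' j • hs d (σ j) (n j) s0) := by
      intro j
      by_cases h : n j = w0
      · have h7 : c' j = c j := by rw [hc']; simp only [if_pos h]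
        rw [h7, h, smul_smul, mul_comm]
      · have h7 : c' j = 0 := by rw [hc']; simp only [if_neg h]
        have h8 : (∏ w ∈ W.erase w0, (X - C (w : k))).eval (n j : k) = 0 := by
          rw [eval_prod]
          refine Finset.prod_eq_zero (Finset.mem_erase.2 ⟨h, hW j⟩) ?_
          rw [eval_sub, eval_X, eval_C, sub_self]
        rw [h7, h8, mul_zero, zero_smul, smul_zero]
    rw [Finset.sum_congr rfl fun j _ => h6 j, ← Finset.smul_sum] at h4
    exact (smul_eq_zero.1 h4).resolve_left h5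
  have hT0 : ∀ s, Tm d σ n c 0 s = ∑ j, c j • hs d (σ j) (n j) s := by
    intro s
    rw [Tm]
    refine Finset.sum_congr rfl fun j _ => ?_
    rw [pow_zero, mul_one]
  obtain ⟨t, ht, htne⟩ := hex
  have hex2 : ∃ s, ∑ j, c j • hs d (σ j) (n j) s ≠ 0 := ⟨s0 + t, by rw [← hT0]; exact htne⟩
  refine ⟨Nat.find hex2, ?_, Nat.find_spec hex2, ?_⟩
  · intro s' hs'
    by_contra hcon
    exact Nat.find_min hex2 hs' hcon
  · intro j hj
    have h1 : Nat.find hex2 ≤ s0 + t := Nat.find_min' hex2 (by rw [← hT0]; exact htne)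
    have h3 := hmin' j hj
    omega

end Pool.Agent.J4H18.MW

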